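import Pool.Agent.Q276.BA.Stm

set_option autoImplicit false

/-!
# Project BA: bounded functions (job F2)
-/

open MeasureTheory Set Filter Topology
open scoped BigOperators ComplexConjugate

namespace Pool.Agent.Q124.BA

open Pool.Agent.Q276.BA

/-- the character `j ↦ e(-jk/m)` -/
noncomputable def ex (m j : ℕ) (k : ℤ) : ℂ :=
  Complex.exp (-(2 * (Real.pi : ℂ) * Complex.I * (j * k / m)))

theorem ex_conj (m j : ℕ) (k : ℤ) :
    conj (ex m j k) = Complex.exp (2 * (Real.pi : ℂ) * Complex.I * (j * k / m)) := by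
  unfold ex
  rw [← Complex.exp_conj]
  congr 1
  have h2 : conj (2 : ℂ) = 2 := map_ofNat _ 2
  simp [Complex.conj_ofReal, h2]

theorem ex_mul (m j : ℕ) (k l : ℤ) :
    ex m j k * conj (ex m j l) =
      (Complex.exp (-(2 * (Real.pi : ℂ) * Complex.I * (((k - l : ℤ) : ℂ) / m)))) ^ j := by
  rw [ex_conj, ex, ← Complex.exp_add, ← Complex.exp_nat_mul]
  congr 1
  push_cast
  ring

theorem sum_zero (m : ℕ) (hm : 1 ≤ m) (d : ℤ) (hd : ¬ (m : ℤ) ∣ d) :
    ∑ j ∈ Finset.range m,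
      (Complex.exp (-(2 * (Real.pi : ℂ) * Complex.I * ((d : ℂ) / m)))) ^ j = 0 := by
  have hm0 : (m : ℂ) ≠ 0 := by
    have : m ≠ 0 := by omega
    exact_mod_cast this
  have hpi : (2 * (Real.pi : ℂ) * Complex.I) ≠ 0 := Complex.two_pi_I_ne_zero
  have h1 : Complex.exp (-(2 * (Real.pi : ℂ) * Complex.I * ((d : ℂ) / m))) ≠ 1 := by
    intro h
    obtain ⟨n, hn⟩ := Complex.exp_eq_one_iff.1 h
    have h2 : (2 * (Real.pi : ℂ) * Complex.I) * (-((d : ℂ) / m)) =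
        (2 * (Real.pi : ℂ) * Complex.I) * n := by
      rw [mul_comm _ (n : ℂ), ← hn]
      ring
    have h3 := mul_left_cancel₀ hpi h2
    have h4 : (d : ℂ) = ((m * (-n) : ℤ) : ℂ) := by
      push_cast
      rw [← h3]
      field_simp
    have h5 : d = m * (-n) := by exact_mod_cast h4
    exact hd ⟨-n, h5⟩
  rw [geom_sum_eq h1, ← Complex.exp_nat_mul]
  have h6 : Complex.exp ((m : ℂ) * -(2 * (Real.pi : ℂ) * Complex.I * ((d : ℂ) / m))) = 1 := by
    rw [Complex.exp_eq_one_iff]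
    refine ⟨-d, ?_⟩
    push_cast
    field_simp
  rw [h6, sub_self, zero_div]

theorem ortho (m : ℕ) (hm : 1 ≤ m) (S : Finset ℤ)
    (hS : ∀ k ∈ S, ∀ l ∈ S, (m : ℤ) ∣ k - l → k = l) (a : ℤ → ℝ) :
    ∑ j ∈ Finset.range m, ‖∑ k ∈ S, (a k : ℂ) * ex m j k‖ ^ 2 = m * ∑ k ∈ S, (a k) ^ 2 := by
  have h1 : ∀ j ∈ Finset.range m, ((‖∑ k ∈ S, (a k : ℂ) * ex m j k‖ ^ 2 : ℝ) : ℂ) =
      ∑ k ∈ S, ∑ l ∈ S, ((a k : ℂ) * (a l : ℂ)) * (ex m j k * conj (ex m j l)) := by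
    intro j _
    rw [Complex.ofReal_pow, ← Complex.mul_conj', map_sum, Finset.sum_mul_sum]
    refine Finset.sum_congr rfl fun k _ => Finset.sum_congr rfl fun l _ => ?_
    rw [map_mul, Complex.conj_ofReal]
    ring
  have h2 : ((∑ j ∈ Finset.range m, ‖∑ k ∈ S, (a k : ℂ) * ex m j k‖ ^ 2 : ℝ) : ℂ) =
      ((m * ∑ k ∈ S, (a k) ^ 2 : ℝ) : ℂ) := by
    rw [Complex.ofReal_sum, Finset.sum_congr rfl h1, Finset.sum_comm]
    rw [Complex.ofReal_mul, Complex.ofReal_sum, Finset.mul_sum]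
    refine Finset.sum_congr rfl fun k hk => ?_
    rw [Finset.sum_comm, Finset.sum_eq_single k]
    · rw [← Finset.mul_sum]
      have h3 : ∀ j ∈ Finset.range m, ex m j k * conj (ex m j k) = 1 := by
        intro j _
        rw [ex_mul, sub_self]
        simp
      rw [Finset.sum_congr rfl h3]
      simp
      ring
    · intro l hl hlk
      rw [← Finset.mul_sum]
      have h3 : ∀ j ∈ Finset.range m, ex m j k * conj (ex m j l) =
          (Complex.exp (-(2 * (Real.pi : ℂ) * Complex.I * (((k - l : ℤ) : ℂ) / m)))) ^ j :=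
        fun j _ => ex_mul m j k l
      rw [Finset.sum_congr rfl h3, sum_zero m hm, mul_zero]
      intro h
      exact hlk (hS k hk l hl h).symm
    · intro h
      exact absurd hk h
  exact_mod_cast h2

theorem cs (m : ℕ) (hm : 1 ≤ m) (S : Finset ℤ)
    (hS : ∀ k ∈ S, ∀ l ∈ S, (m : ℤ) ∣ k - l → k = l) (a : ℤ → ℝ) :
    ∑ j ∈ Finset.range m, ‖∑ k ∈ S, (a k : ℂ) * ex m j k‖ ≤
      m * Real.sqrt (∑ k ∈ S, (a k) ^ 2) := by
  have h1 := Finset.sum_mul_sq_le_sq_mul_sq (Finset.range m) (fun _ => (1 : ℝ))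
    (fun j => ‖∑ k ∈ S, (a k : ℂ) * ex m j k‖)
  simp only [one_mul, one_pow, Finset.sum_const, Finset.card_range, nsmul_eq_mul, mul_one] at h1
  rw [ortho m hm S hS a] at h1
  have h0 : 0 ≤ ∑ k ∈ S, (a k) ^ 2 := Finset.sum_nonneg fun k _ => sq_nonneg _
  have h2 : (∑ j ∈ Finset.range m, ‖∑ k ∈ S, (a k : ℂ) * ex m j k‖) ^ 2 ≤
      (m * Real.sqrt (∑ k ∈ S, (a k) ^ 2)) ^ 2 := by
    rw [mul_pow, Real.sq_sqrt h0]
    calc _ ≤ (m : ℝ) * (m * ∑ k ∈ S, (a k) ^ 2) := h1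
      _ = _ := by ring
  exact le_of_sq_le_sq h2 (by positivity)
  where
  le_of_sq_le_sq {x y : ℝ} (h : x ^ 2 ≤ y ^ 2) (hy : 0 ≤ y) : x ≤ y := by
    nlinarith [abs_le_abs_of_sq_le_sq h, le_abs_self x, abs_of_nonneg hy]
  abs_le_abs_of_sq_le_sq {x y : ℝ} (h : x ^ 2 ≤ y ^ 2) : |x| ≤ |y| := sq_le_sq.1 h

theorem pointwise (m : ℕ) (hm : 1 ≤ m) (S : Finset ℤ)
    (hS : ∀ k ∈ S, ∀ l ∈ S, (m : ℤ) ∣ k - l → k = l) (a : ℤ → ℝ) (f : ℂ → ℂ) (B : ℝ)
    (hB : ∀ z, ‖f z‖ ≤ B) (w : ℂ) :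
    ‖∑ k ∈ S, (a k : ℂ) * pr m k f w‖ ≤ Real.sqrt (∑ k ∈ S, (a k) ^ 2) * B := by
  have hm0 : (0 : ℝ) < m := by exact_mod_cast hm
  have hB0 : 0 ≤ B := (norm_nonneg _).trans (hB 0)
  have h1 : ∑ k ∈ S, (a k : ℂ) * pr m k f w = (1 / (m : ℂ)) * ∑ j ∈ Finset.range m,
      (∑ k ∈ S, (a k : ℂ) * ex m j k) *
        f (Complex.exp (2 * (Real.pi : ℂ) * Complex.I * (j / m)) * w) := by
    unfold pr
    simp only [Finset.sum_mul, Finset.mul_sum]
    rw [Finset.sum_comm]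
    refine Finset.sum_congr rfl fun j _ => Finset.sum_congr rfl fun k _ => ?_
    unfold ex
    ring
  rw [h1, norm_mul]
  have h2 : ‖∑ j ∈ Finset.range m, (∑ k ∈ S, (a k : ℂ) * ex m j k) *
      f (Complex.exp (2 * (Real.pi : ℂ) * Complex.I * (j / m)) * w)‖ ≤
      (∑ j ∈ Finset.range m, ‖∑ k ∈ S, (a k : ℂ) * ex m j k‖) * B := by
    refine (norm_sum_le _ _).trans ?_
    rw [Finset.sum_mul]
    refine Finset.sum_le_sum fun j _ => ?_
    rw [norm_mul]
    exact mul_le_mul_of_nonneg_left (hB _) (norm_nonneg _)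
  have h3 : ‖(1 / (m : ℂ))‖ = 1 / (m : ℝ) := by
    rw [norm_div, norm_one, Complex.norm_natCast]
  rw [h3]
  calc 1 / (m : ℝ) * ‖∑ j ∈ Finset.range m, (∑ k ∈ S, (a k : ℂ) * ex m j k) *
      f (Complex.exp (2 * (Real.pi : ℂ) * Complex.I * (j / m)) * w)‖
      ≤ 1 / (m : ℝ) * ((m * Real.sqrt (∑ k ∈ S, (a k) ^ 2)) * B) := by
        refine mul_le_mul_of_nonneg_left (h2.trans ?_) (by positivity)
        exact mul_le_mul_of_nonneg_right (cs m hm S hS a) hB0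
    _ = Real.sqrt (∑ k ∈ S, (a k) ^ 2) * B := by
        field_simp

theorem pr_meas (m : ℕ) (k : ℤ) (f : ℂ → ℂ) (hf : Measurable f) : Measurable (pr m k f) := by
  unfold pr
  refine Measurable.const_mul (Finset.measurable_fun_sum _ fun j _ => Measurable.const_mul ?_ _) _
  exact hf.comp (measurable_const.mul measurable_id)

theorem pr_bd (m : ℕ) (hm : 1 ≤ m) (k : ℤ) (f : ℂ → ℂ) (B : ℝ) (hB : ∀ z, ‖f z‖ ≤ B) (w : ℂ) :
    ‖pr m k f w‖ ≤ B := by
  have h := pointwise m hm {k} (by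
    intro a ha b hb _
    rw [Finset.mem_singleton] at ha hb
    rw [ha, hb]) (fun _ => 1) f B hB w
  simpa using h

/-- Project BA, job F2. -/
theorem f2 : S_F2 := by
  intro m S Q V hm hS hQ hV f hf B hB z
  have hB0 : 0 ≤ B := (norm_nonneg _).trans (hB 0)
  have hint : ∀ k ∈ S, IntervalIntegrable
      (fun v : ℝ => (Q k v : ℂ) * pr m k f ((Real.sqrt v : ℂ) * z)) volume 0 1 := by
    intro k hk
    obtain ⟨C, hC⟩ := isCompact_Icc.exists_bound_of_continuousOn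
      (s := Icc (0 : ℝ) 1) (hQ k hk).continuousOn
    rw [intervalIntegrable_iff_integrableOn_Ioc_of_le zero_le_one]
    refine Measure.integrableOn_of_bounded (M := C * B) (by simp) ?_ ?_
    · have h1 : Measurable fun v : ℝ => (Q k v : ℂ) :=
        Complex.measurable_ofReal.comp (hQ k hk).measurable
      have h2 : Measurable fun v : ℝ => pr m k f ((Real.sqrt v : ℂ) * z) := by
        refine (pr_meas m k f hf).comp (Measurable.mul_const ?_ _)
        exact Complex.measurable_ofReal.comp Real.continuous_sqrt.measurable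
      exact (h1.mul h2).aestronglyMeasurable
    · refine (ae_restrict_mem measurableSet_Ioc).mono fun v hv => ?_
      rw [norm_mul, Complex.norm_real]
      exact mul_le_mul (hC v ⟨hv.1.le, hv.2⟩) (pr_bd m hm k f B hB _) (norm_nonneg _)
        ((norm_nonneg _).trans (hC v ⟨hv.1.le, hv.2⟩))
  unfold AS
  rw [← intervalIntegral.integral_finsetSum hint]
  have hcont : Continuous fun v : ℝ => Real.sqrt (∑ k ∈ S, (Q k v) ^ 2) :=
    Real.continuous_sqrt.comp (continuous_finsetSum S fun k hk => (hQ k hk).pow 2)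
  have h1 : ‖∫ v in (0 : ℝ)..1, ∑ k ∈ S, (Q k v : ℂ) * pr m k f ((Real.sqrt v : ℂ) * z)‖ ≤
      ∫ v in (0 : ℝ)..1, Real.sqrt (∑ k ∈ S, (Q k v) ^ 2) * B := by
    refine intervalIntegral.norm_integral_le_of_norm_le zero_le_one ?_
      ((hcont.mul continuous_const).intervalIntegrable 0 1)
    exact Eventually.of_forall fun v _ =>
      pointwise m hm S hS (fun k => Q k v) f B hB _
  rw [intervalIntegral.integral_mul_const] at h1
  calc _ ≤ ‖f z‖ + _ := norm_add_le _ _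
    _ ≤ B + V * B := add_le_add (hB z) (h1.trans (mul_le_mul_of_nonneg_right hV hB0))
    _ = (1 + V) * B := by ring

end Pool.Agent.Q124.BA
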